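import Pool.Agent.Lib.MP_c07d1e_lc.Or

namespace Pool.Agent.Lib.MP_c07d1e_lc.Variants.QueryUnion

open Pool.Agent.Lib.MP_c07d1e_lc

/-- For every finite terminal alphabet `A`, every infinite set `X` of variables, every universe
variable `w` and every head `hd`, a finite union of FC[REG]-CQs has on every word the same answers
as one FC[REG]-CQ. With the empty head this is the equality of the two classes of languages. -/
theorem result (A X : Type) [Finite A] [Infinite X] (w : X) (hd : List X) (Φ : List (CQ A X)) :
    ∃ φ : CQ A X, ∀ u : List A, φ.ans w hd u = {t | ∃ ψ ∈ Φ, t ∈ ψ.ans w hd u} :=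
  ans_union w hd Φ

end Pool.Agent.Lib.MP_c07d1e_lc.Variants.QueryUnion
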